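import Pool.Agent.Helper30.SY.St

/-!
# Project SY, module STP: from the improved chain to the structure of extremal pairs
-/

set_option autoImplicit false

namespace Pool.Agent.Helper45.SY

open Finset Pool.Agent.Helper30.SY

private lemma circ_dif {n : ℕ} (T T' : Fin n → Fin n → Prop)
    (hrow : ∀ v, ∑ u, Pool.Agent.Helper40.TI.dif T T' v u = 0) :
    Circ (Pool.Agent.Helper40.TI.dif T T') := by
  refine ⟨fun u v => ?_, fun u v => ?_, hrow⟩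
  · unfold Pool.Agent.Helper40.TI.dif
    split_ifs <;> simp
  · unfold Pool.Agent.Helper40.TI.dif
    ring

private lemma mis_eq {n : ℕ} (s : Fin n → Fin n → ℤ) (h : Circ s) :
    (mis s : ℤ) = ∑ v, ((n : ℤ) - 1 - 2 * (od s v : ℤ)) := by
  have h0 : ∀ v, s v v = 0 := by
    intro v
    have := h.sk v v
    omega
  have e1 : (mis s : ℤ) = ∑ v, ∑ u, (if v ≠ u ∧ s v u = 0 then (1 : ℤ) else 0) := by
    unfold mis
    rw [Finset.card_filter]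
    push_cast
    rw [Fintype.sum_prod_type]
  rw [e1]
  refine Finset.sum_congr rfl fun v _ => ?_
  have e2 : (od s v : ℤ) = ∑ u, (if s v u = 1 then (1 : ℤ) else 0) := by
    unfold od
    rw [Finset.card_filter]
    push_cast
    rfl
  have e3 : ∀ u, (if v ≠ u ∧ s v u = 0 then (1 : ℤ) else 0) =
      1 - (if v = u then 1 else 0) - 2 * (if s v u = 1 then (1 : ℤ) else 0) + s v u := by
    intro u
    by_cases hvu : v = u
    · subst hvu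
      simp [h0]
    · rcases h.v1 v u with h1 | h1 | h1 <;> simp [hvu, h1]
  rw [Finset.sum_congr rfl fun u _ => e3 u, Finset.sum_add_distrib, Finset.sum_sub_distrib,
    Finset.sum_sub_distrib, ← Finset.mul_sum, ← e2, h.row v]
  simp

private lemma nW_nonneg {n : ℕ} (s : Fin n → Fin n → ℤ) : 0 ≤ nW s := by
  unfold nW
  refine Finset.sum_nonneg fun z _ => Finset.sum_nonneg fun a _ => Finset.sum_nonneg fun b _ =>
    Finset.sum_nonneg fun c _ => ?_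
  split_ifs <;> norm_num

/-- Module STP. -/
theorem hSTP : StSTP := by
  intro hR hI ξ hξ
  obtain ⟨δ, hδ0, hδ1, hδ2⟩ : ∃ δ : ℝ, 0 < δ ∧ 8 * δ ≤ ξ ^ 2 ∧ 18 * δ ≤ ξ := by
    refine ⟨min (ξ ^ 2 / 8) (ξ / 18), lt_min (by positivity) (by positivity), ?_, ?_⟩
    · have := min_le_left (ξ ^ 2 / 8) (ξ / 18)
      linarith
    · have := min_le_right (ξ ^ 2 / 8) (ξ / 18)
      linarith
  obtain ⟨n0, hn0⟩ := hR 2 δ (by norm_num) hδ0
  refine ⟨δ, max n0 1, hδ0, fun n hn T T' hT hT' hrow => ?_⟩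
  have hn1 : 1 ≤ n := le_trans (le_max_right _ _) hn
  have hC := circ_dif T T' hrow
  obtain ⟨X, hX, hXs⟩ := hI n _ hn1 hC
  obtain ⟨Y, hY1, hY2, hY3⟩ := hn0 n (le_trans (le_max_left _ _) hn) _ X hC hX
  obtain ⟨k, hk, hst⟩ := Pool.Agent.Helper40.TI.steps_of_chain hT hT' Y hY1 hY2
  by_cases hle : (k : ℝ) ≤ (1 / 4 - δ) * (n : ℝ) ^ 2
  · exact Or.inl ⟨k, hst, hle⟩
  refine Or.inr ⟨k, hst, ?_⟩
  push Not at hle
  set s := Pool.Agent.Helper40.TI.dif T T' with hs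
  have hnr : (1 : ℝ) ≤ n := by exact_mod_cast hn1
  have hnp : (0 : ℝ) < n := by linarith
  have hk' : (k : ℝ) ≤ ((∑ a, ∑ b, ∑ c, |Y a b c| : ℤ) : ℝ) := by exact_mod_cast hk
  have hkk : (1 / 4 - δ) * (n : ℝ) ^ 2 < (∑ v, (od s v : ℝ) * ((n : ℝ) - 1 - od s v)) / n -
        nW s / (9 * (n : ℝ) ^ 2) + δ * (n : ℝ) ^ 2 := by linarith
  obtain ⟨m, hm⟩ : ∃ m : Fin n → ℝ, ∀ v, m v = (n : ℝ) - 1 - 2 * (od s v : ℝ) := ⟨_, fun v => rfl⟩
  have hS : (∑ v, (od s v : ℝ) * ((n : ℝ) - 1 - od s v)) ≤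
      (n : ℝ) * ((n : ℝ) ^ 2 / 4) - (∑ v, (m v) ^ 2) / 4 := by
    have e : ∀ v, (od s v : ℝ) * ((n : ℝ) - 1 - od s v) ≤ (n : ℝ) ^ 2 / 4 - (m v) ^ 2 / 4 := by
      intro v
      rw [hm v]
      nlinarith
    calc (∑ v, (od s v : ℝ) * ((n : ℝ) - 1 - od s v)) ≤ ∑ v : Fin n, ((n : ℝ) ^ 2 / 4 - (m v) ^ 2 / 4) :=
          Finset.sum_le_sum fun v _ => e v
      _ = _ := by
          rw [Finset.sum_sub_distrib, Finset.sum_div, Finset.sum_const, Finset.card_univ, Fintype.card_fin,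
            nsmul_eq_mul]
  have hS2 : (∑ v, (od s v : ℝ) * ((n : ℝ) - 1 - od s v)) / n ≤
      (n : ℝ) ^ 2 / 4 - (∑ v, (m v) ^ 2) / (4 * n) := by
    rw [div_le_iff₀ hnp]
    have : ((n : ℝ) ^ 2 / 4 - (∑ v, (m v) ^ 2) / (4 * n)) * n =
        (n : ℝ) * ((n : ℝ) ^ 2 / 4) - (∑ v, (m v) ^ 2) / 4 := by
      field_simp
    rw [this]
    exact hS
  have hM0 : 0 ≤ ∑ v, (m v) ^ 2 := Finset.sum_nonneg fun v _ => sq_nonneg _
  have hW0 := nW_nonneg s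
  have key : (∑ v, (m v) ^ 2) / (4 * n) + nW s / (9 * (n : ℝ) ^ 2) < 2 * δ * (n : ℝ) ^ 2 := by
    linarith
  have hA : 0 ≤ (∑ v, (m v) ^ 2) / (4 * n) := by positivity
  have hB : 0 ≤ nW s / (9 * (n : ℝ) ^ 2) := by positivity
  have hM : ∑ v, (m v) ^ 2 ≤ 8 * δ * (n : ℝ) ^ 3 := by
    have h1 : (∑ v, (m v) ^ 2) / (4 * n) ≤ 2 * δ * (n : ℝ) ^ 2 := by linarith
    rw [div_le_iff₀ (by positivity)] at h1
    calc ∑ v, (m v) ^ 2 ≤ 2 * δ * (n : ℝ) ^ 2 * (4 * n) := h1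
      _ = 8 * δ * (n : ℝ) ^ 3 := by ring
  constructor
  · have hmis : (mis s : ℝ) = ∑ v, m v := by
      have h1 := mis_eq s hC
      have h2 : ((mis s : ℤ) : ℝ) = ((∑ v, ((n : ℤ) - 1 - 2 * (od s v : ℤ)) : ℤ) : ℝ) := by
        rw [h1]
      push_cast at h2
      rw [h2]
      exact Finset.sum_congr rfl fun v _ => (hm v).symm
    have hcs : (∑ v, m v) ^ 2 ≤ (n : ℝ) * ∑ v, (m v) ^ 2 := by
      have := sq_sum_le_card_mul_sum_sq (s := (univ : Finset (Fin n))) (f := m)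
      rw [Finset.card_univ, Fintype.card_fin] at this
      exact this
    have h2 : (mis s : ℝ) ^ 2 ≤ (ξ * (n : ℝ) ^ 2) ^ 2 := by
      rw [hmis]
      calc (∑ v, m v) ^ 2 ≤ (n : ℝ) * ∑ v, (m v) ^ 2 := hcs
        _ ≤ (n : ℝ) * (8 * δ * (n : ℝ) ^ 3) := by gcongr
        _ = 8 * δ * (n : ℝ) ^ 4 := by ring
        _ ≤ ξ ^ 2 * (n : ℝ) ^ 4 := by gcongr
        _ = (ξ * (n : ℝ) ^ 2) ^ 2 := by ring
    exact le_of_sq_le_sq h2 (by positivity)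
  · have h1 : nW s / (9 * (n : ℝ) ^ 2) ≤ 2 * δ * (n : ℝ) ^ 2 := by linarith
    rw [div_le_iff₀ (by positivity)] at h1
    calc nW s ≤ 2 * δ * (n : ℝ) ^ 2 * (9 * (n : ℝ) ^ 2) := h1
      _ = 18 * δ * (n : ℝ) ^ 4 := by ring
      _ ≤ ξ * (n : ℝ) ^ 4 := by gcongr

end Pool.Agent.Helper45.SY
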